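import Pool.Agent.W973.IP.Defs

/-!
# True sentences are good for small parameters
-/

set_option autoImplicit false

namespace Pool.Agent.W692.IP

open Pool.Agent.W973.IP

lemma totalDegree_aeval_le {σ τ : Type} (g : σ → MvPolynomial τ ℝ) (hg : ∀ i, (g i).totalDegree ≤ 1)
    (P : MvPolynomial σ ℚ) : (MvPolynomial.aeval g P).totalDegree ≤ P.totalDegree := by
  rw [MvPolynomial.aeval_def, MvPolynomial.eval₂_eq]
  refine MvPolynomial.totalDegree_finsetSum_le fun d hd => ?_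
  refine (MvPolynomial.totalDegree_mul _ _).trans ?_
  have h1 : (algebraMap ℚ (MvPolynomial τ ℝ) (P.coeff d)).totalDegree = 0 := by
    rw [MvPolynomial.algebraMap_apply]
    exact MvPolynomial.totalDegree_C _
  rw [h1, zero_add]
  refine (MvPolynomial.totalDegree_finsetProd _ _).trans ?_
  refine le_trans (Finset.sum_le_sum fun i _ => (MvPolynomial.totalDegree_pow (g i) (d i)).trans
    (Nat.mul_le_mul_left _ (hg i))) ?_
  refine le_trans (le_of_eq ?_) (MvPolynomial.le_totalDegree hd)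
  simp only [mul_one]
  rfl

lemma eval_sub {n : ℕ} (P : MvPolynomial (Fin n ⊕ Fin n) ℚ) (u w : Vec n) :
    MvPolynomial.eval w (MvPolynomial.aeval
      (Sum.elim (fun l => MvPolynomial.C (u l)) MvPolynomial.X : Fin n ⊕ Fin n →
        MvPolynomial (Fin n) ℝ) P) = hv P u w := by
  rw [MvPolynomial.map_aeval]
  unfold hv
  rw [MvPolynomial.aeval_eq_eval₂Hom]
  have h1 : ((MvPolynomial.eval w).comp (algebraMap ℚ (MvPolynomial (Fin n) ℝ))) =
      algebraMap ℚ ℝ := Subsingleton.elim _ _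
  have h2 : (fun i => MvPolynomial.eval w ((Sum.elim (fun l => MvPolynomial.C (u l))
      MvPolynomial.X : Fin n ⊕ Fin n → MvPolynomial (Fin n) ℝ) i)) = Sum.elim u w := by
    funext i
    cases i with
    | inl l => simp
    | inr l => simp
  rw [h1, h2]

lemma NN_ge (n : ℕ) : (4 * (n + 2)) ^ (n + 1) + (n + 2) ≤ NN n := by
  unfold NN b0
  have h1 : n + 2 ≤ 2 ^ (n + 1) := by
    have := Nat.lt_two_pow_self (n := n + 1)
    omega
  have h2 : 4 * (n + 2) ≤ 2 ^ (n + 3) := by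
    calc 4 * (n + 2) ≤ 4 * 2 ^ (n + 1) := Nat.mul_le_mul_left _ h1
      _ = 2 ^ (n + 3) := by ring
  have h3 : (4 * (n + 2)) ^ (n + 1) ≤ 2 ^ ((n + 3) * (n + 1)) := by
    rw [pow_mul]; exact Nat.pow_le_pow_left h2 _
  have h4 : (4 * (n + 2)) ^ (n + 1) ≤ 2 ^ ((n + 4) ^ 2 - 1) :=
    h3.trans (Nat.pow_le_pow_right (by norm_num) (by
      have : (n + 4) ^ 2 = (n + 3) * (n + 1) + (4 * n + 13) := by ring
      omega))
  have h5 : n + 2 ≤ 2 ^ ((n + 4) ^ 2 - 1) :=
    h1.trans (Nat.pow_le_pow_right (by norm_num) (by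
      have : (n + 4) ^ 2 = (n + 1) + (n ^ 2 + 7 * n + 15) := by ring
      omega))
  calc (4 * (n + 2)) ^ (n + 1) + (n + 2) ≤ 2 ^ ((n + 4) ^ 2 - 1) + 2 ^ ((n + 4) ^ 2 - 1) :=
        Nat.add_le_add h4 h5
    _ = 2 ^ (((n + 4) ^ 2 - 1) + 1) := by ring
    _ = 2 ^ ((n + 4) ^ 2) := by
        congr 1

theorem trueT (h1 : S_LOJ) (h2 : S_QB) : S_TRUE := by
  intro n P a hP hnn hex
  obtain ⟨u, hu⟩ := hex
  set f : MvPolynomial (Fin n) ℝ := MvPolynomial.aeval
      (Sum.elim (fun l => MvPolynomial.C (u l)) MvPolynomial.X : Fin n ⊕ Fin n →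
        MvPolynomial (Fin n) ℝ) P with hf
  have hfe : ∀ w, MvPolynomial.eval w f = hv P u w := fun w => eval_sub P u w
  have hfd : f.totalDegree ≤ 4 := by
    refine (totalDegree_aeval_le _ (fun i => ?_) P).trans hP
    cases i with
    | inl l =>
      rw [Sum.elim_inl, MvPolynomial.totalDegree_C]
      exact Nat.zero_le _
    | inr l =>
      rw [Sum.elim_inr]
      exact (MvPolynomial.totalDegree_X l).le
  obtain ⟨κ, hκ, hκ'⟩ := h1 n f hfd (fun w => by
    rw [hfe]; exact lt_of_le_of_ne (hnn u w) (hu w).symm)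
  obtain ⟨C, hC, hC'⟩ := h2 n a
  set S6 : ℝ := ∑ l, u l ^ 6 with hS6
  set S1 : ℝ := ∑ l, |u l| with hS1
  have hS6n : 0 ≤ S6 := Finset.sum_nonneg fun l _ => by positivity
  have hS1n : 0 ≤ S1 := Finset.sum_nonneg fun l _ => abs_nonneg _
  have hden : 0 < (S6 + 1) + C * (1 + S1) := by positivity
  refine ⟨κ / ((S6 + 1) + C * (1 + S1)), by positivity, fun c e hc hcδ he heδ => ⟨u, fun w => ?_⟩⟩
  have hX1 : 1 ≤ Pool.Agent.W973.IP.X w := by
    unfold Pool.Agent.W973.IP.X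
    have : 0 ≤ ∑ j, w j ^ 2 := Finset.sum_nonneg fun j _ => sq_nonneg _
    linarith
  set Y : ℝ := Pool.Agent.W973.IP.X w with hY
  have hYp : 0 < Y := by linarith
  have hYn : 1 ≤ Y ^ (n + 2) := one_le_pow₀ hX1
  have hY1 : Y ^ (n + 1) ≤ Y ^ (n + 2) := pow_le_pow_right₀ hX1 (by omega)
  -- the main term
  have hmain : κ * Y ^ (n + 2) ≤ hv P u w * Y ^ NN n := by
    have e1 := hκ' w
    rw [hfe] at e1
    have e2 : NN n = (4 * (n + 2)) ^ (n + 1) + (NN n - (4 * (n + 2)) ^ (n + 1)) := by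
      have := NN_ge n; omega
    have e3 : Y ^ (n + 2) ≤ Y ^ (NN n - (4 * (n + 2)) ^ (n + 1)) :=
      pow_le_pow_right₀ hX1 (by have := NN_ge n; omega)
    calc κ * Y ^ (n + 2) ≤ (hv P u w * Y ^ (4 * (n + 2)) ^ (n + 1)) *
          Y ^ (NN n - (4 * (n + 2)) ^ (n + 1)) :=
          mul_le_mul e1 e3 (by positivity) (mul_nonneg (hnn u w) (by positivity))
      _ = hv P u w * Y ^ ((4 * (n + 2)) ^ (n + 1) + (NN n - (4 * (n + 2)) ^ (n + 1))) := by
          rw [pow_add Y ((4 * (n + 2)) ^ (n + 1)), mul_assoc]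
      _ = hv P u w * Y ^ NN n := by rw [← e2]
  -- the perturbation
  have hq : -(C * (1 + S1) * Y ^ (n + 2)) ≤ qa a u w := by
    have e1 := abs_le.1 (hC' u w)
    have e2 : C * (Y ^ (n + 1) + S1) ≤ C * (1 + S1) * Y ^ (n + 2) := by
      rw [mul_assoc]
      refine mul_le_mul_of_nonneg_left ?_ hC
      nlinarith
    have e3 : 0 ≤ Y ^ (n + 2) := by positivity
    linarith [e1.1]
  unfold G
  have h3 : e * -(C * (1 + S1) * Y ^ (n + 2)) ≤ e * qa a u w := mul_le_mul_of_nonneg_left hq he.le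
  have h4 : c * (S6 + 1) + e * (C * (1 + S1)) < κ := by
    have e0 : κ / ((S6 + 1) + C * (1 + S1)) * ((S6 + 1) + C * (1 + S1)) = κ :=
      div_mul_cancel₀ _ hden.ne'
    have e1 : c * (S6 + 1) < κ / ((S6 + 1) + C * (1 + S1)) * (S6 + 1) :=
      mul_lt_mul_of_pos_right hcδ (by positivity)
    have e2 : e * (C * (1 + S1)) ≤ κ / ((S6 + 1) + C * (1 + S1)) * (C * (1 + S1)) :=
      mul_le_mul_of_nonneg_right heδ.le (by positivity)
    have e3 : κ / ((S6 + 1) + C * (1 + S1)) * (S6 + 1) +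
      κ / ((S6 + 1) + C * (1 + S1)) * (C * (1 + S1)) = κ := by rw [← mul_add]; exact e0
    linarith
  have h5 : 0 < (κ - (c * (S6 + 1) + e * (C * (1 + S1)))) * Y ^ (n + 2) :=
    mul_pos (by linarith) (by positivity)
  have h6 : c * (S6 + 1) ≤ c * (S6 + 1) * Y ^ (n + 2) :=
    le_mul_of_one_le_right (by positivity) hYn
  nlinarith

end Pool.Agent.W692.IP
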